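import Pool.Agent.R656.DTGroup

/-!
# Doubly transitive quandle homomorphisms have no fibre with six elements

No fibre of a doubly transitive homomorphism of quandles (of any cardinality) has exactly six
elements.  In particular the trivial quandle of order `6` is no fibre of a doubly transitive
homomorphism.
-/

set_option autoImplicit false

namespace Pool.Agent.Results.MP_4dd1f4_al.NoFiberOfOrderSix

open Equiv Pool.Agent.R656.DT
open scoped Quandles

universe u v

/-- The inner automorphism group of the quandle `P`: the subgroup of `Sym(P)` that is generated by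
the maps `s_x : y ↦ x ◃ y`. -/
def Inn (P : Type u) [Quandle P] : Subgroup (Perm P) :=
  Subgroup.closure (Set.range fun x : P => Rack.act' x)

/-- The relative inner automorphism group of a homomorphism `f`: the inner automorphisms of `P` that
map every fibre of `f` to itself. -/
def InnRel {P : Type u} {Q : Type v} [Quandle P] [Quandle Q] (f : P →◃ Q) :
    Subgroup (Perm P) where
  carrier := {g | g ∈ Inn P ∧ ∀ p, f (g p) = f p}
  mul_mem' := by
    rintro g h ⟨hg1, hg2⟩ ⟨hh1, hh2⟩
    exact ⟨mul_mem hg1 hh1, fun p => by rw [Perm.mul_apply, hg2, hh2]⟩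
  one_mem' := ⟨one_mem _, fun p => rfl⟩
  inv_mem' := by
    rintro g ⟨hg1, hg2⟩
    refine ⟨inv_mem hg1, fun p => ?_⟩
    have h := hg2 (g⁻¹ p)
    rw [← h]
    congr 1
    simp

/-- A homomorphism `f : P → Q` of quandles is doubly transitive if it is surjective and for every
`q`, the relative inner automorphism group acts transitively on the ordered pairs of distinct points
of the fibre of `q`. -/
def DoublyTransitive {P : Type u} {Q : Type v} [Quandle P] [Quandle Q] (f : P →◃ Q) : Prop :=
  Function.Surjective f ∧ ∀ q : Q, ∀ x y x' y' : P, f x = q → f y = q → f x' = q → f y' = q →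
    x ≠ y → x' ≠ y' → ∃ g ∈ InnRel f, g x = x' ∧ g y = y'

/-- The fibre of `q` is isomorphic to the trivial quandle of order `n`. -/
def TrivialFiber {P : Type u} {Q : Type v} [Quandle P] [Quandle Q] (f : P →◃ Q) (q : Q)
    (n : ℕ) : Prop :=
  Nonempty ({x // f x = q} ≃ Fin n) ∧ ∀ x y : P, f x = q → f y = q → x ◃ y = y

section

variable {P : Type u} {Q : Type v} [Quandle P] [Quandle Q] {f : P →◃ Q}

/-- The action of the relative inner automorphism group on a fibre. -/
def res (f : P →◃ Q) (q : Q) : InnRel f →* Perm {x // f x = q} where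
  toFun g := (g : Perm P).subtypePerm fun x => by rw [g.2.2 x]
  map_one' := by ext; rfl
  map_mul' := by intro g h; ext; rfl

lemma res_apply (q : Q) (g : InnRel f) (x : {x // f x = q}) :
    ((res f q g x : {x // f x = q}) : P) = (g : Perm P) x := rfl

lemma res_eq_one (q : Q) (g : InnRel f) :
    res f q g = 1 ↔ ∀ x, f x = q → (g : Perm P) x = x := by
  constructor
  · intro h x hx
    have := congrArg (fun e : Perm {x // f x = q} => ((e ⟨x, hx⟩ : {x // f x = q}) : P)) h
    exact this
  · intro h
    ext x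
    exact h x.1 x.2

lemma twoT_res (hf : DoublyTransitive f) (q : Q) : TwoT (res f q) := by
  intro x y x' y' hxy hxy'
  obtain ⟨g, hg, h1, h2⟩ := hf.2 q x y x' y' x.2 y.2 x'.2 y'.2 (fun h => hxy (Subtype.ext h))
    fun h => hxy' (Subtype.ext h)
  exact ⟨⟨g, hg⟩, Subtype.ext h1, Subtype.ext h2⟩

lemma act_mem_inn (b : P) : (Rack.act' b : Perm P) ∈ Inn P :=
  Subgroup.subset_closure ⟨b, rfl⟩

/-- Inner automorphisms are automorphisms. -/
lemma inn_act {u : Perm P} (hu : u ∈ Inn P) (x y : P) : u (x ◃ y) = u x ◃ u y := by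
  induction hu using Subgroup.closure_induction generalizing x y with
  | mem u hu =>
    obtain ⟨b, rfl⟩ := hu
    exact Shelf.self_distrib
  | one => rfl
  | mul u w _ _ h1 h2 => rw [Perm.mul_apply, h2, h1]; rfl
  | inv u _ h =>
    apply u.injective
    rw [h]
    simp

lemma conj_act {u : Perm P} (hu : u ∈ Inn P) {b : P} (hb : u b = b) :
    (Rack.act' b : Perm P) * u * (Rack.act' b : Perm P)⁻¹ = u := by
  rw [mul_inv_eq_iff_eq_mul]
  ext z
  show b ◃ u z = u (b ◃ z)
  rw [inn_act hu, hb]

/-- Conjugation by `s_b`. -/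
lemma conj_mem {b : P} {g : Perm P} (hg : g ∈ InnRel f) :
    (Rack.act' b : Perm P) * g * (Rack.act' b : Perm P)⁻¹ ∈ InnRel f := by
  refine ⟨mul_mem (mul_mem (act_mem_inn b) hg.1) (inv_mem (act_mem_inn b)), fun p => ?_⟩
  show f (b ◃ g ((Rack.act' b : Perm P)⁻¹ p)) = f p
  rw [ShelfHom.map_act, hg.2, ← ShelfHom.map_act]
  congr 1
  exact Rack.act_invAct_eq b p

lemma conj_mem' {b : P} {g : Perm P} (hg : g ∈ InnRel f) :
    (Rack.act' b : Perm P)⁻¹ * g * (Rack.act' b : Perm P) ∈ InnRel f := by
  refine ⟨mul_mem (mul_mem (inv_mem (act_mem_inn b)) hg.1) (act_mem_inn b), fun p => ?_⟩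
  have h : ∀ z : P, f (b ◃ z) = f b ◃ f z := fun z => ShelfHom.map_act f
  have h1 : f b ◃ f (((Rack.act' b : Perm P)⁻¹ * g * (Rack.act' b : Perm P)) p) = f b ◃ f p := by
    rw [← h, ← h]
    show f (b ◃ ((Rack.act' b : Perm P)⁻¹ (g (b ◃ p)))) = f (b ◃ p)
    rw [← hg.2 (b ◃ p)]
    congr 1
    exact Rack.act_invAct_eq b _
  exact (Rack.left_cancel _).1 h1

/-- Conjugation by `s_b` as an endomorphism of the relative inner automorphism group. -/
def cj (f : P →◃ Q) (b : P) : InnRel f →* InnRel f where
  toFun g := ⟨_, conj_mem (b := b) g.2⟩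
  map_one' := by ext; simp
  map_mul' := by intro g h; ext; simp

lemma cj_coe (b : P) (g : InnRel f) :
    ((cj f b g : InnRel f) : Perm P) =
      (Rack.act' b : Perm P) * g * (Rack.act' b : Perm P)⁻¹ := rfl

lemma cj_of_fix {b : P} {g : InnRel f} (hg : (g : Perm P) b = b) : cj f b g = g :=
  Subtype.ext (conj_act g.2.1 hg)

lemma cj_res (b : P) (q : Q) (g : InnRel f) :
    res f q g = 1 ↔ res f (f b ◃ q) (cj f b g) = 1 := by
  rw [res_eq_one, res_eq_one]
  constructor
  · intro h y hy
    show b ◃ (g : Perm P) ((Rack.act' b : Perm P)⁻¹ y) = y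
    have h1 : b ◃ ((Rack.act' b : Perm P)⁻¹ y) = y := Rack.act_invAct_eq b y
    have h2 : f ((Rack.act' b : Perm P)⁻¹ y) = q := by
      rw [← Rack.left_cancel (f b), ← ShelfHom.map_act, h1, hy]
    rw [h _ h2, h1]
  · intro h x hx
    have h1 := h (b ◃ x) (by rw [ShelfHom.map_act, hx])
    have h2 : b ◃ (g : Perm P) ((Rack.act' b : Perm P)⁻¹ (b ◃ x)) = b ◃ x := h1
    have h3 : (Rack.act' b : Perm P)⁻¹ (b ◃ x) = x := Rack.invAct_act_eq b x
    rw [h3] at h2
    exact (Rack.left_cancel b).1 h2

/-- The fibre of `f b ◃ q` has as many elements as the fibre of `q`. -/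
lemma card_fiber (b : P) (q : Q) :
    Nat.card {x // f x = f b ◃ q} = Nat.card {x // f x = q} := by
  refine Nat.card_congr (Equiv.subtypeEquiv ((Rack.act' b : P ≃ P).symm) fun x => ?_)
  have h1 : b ◃ ((Rack.act' b : P ≃ P).symm x) = x := Rack.act_invAct_eq b x
  rw [← Rack.left_cancel (f b) (y := f ((Rack.act' b : P ≃ P).symm x)), ← ShelfHom.map_act, h1]

/-- First step: the kernels on the fibres of `q` and `f b ◃ q` are the same. -/
lemma step1 (hf : DoublyTransitive f) {q : Q} (hq : Nat.card {x // f x = q} = 6) (b : P)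
    (g : InnRel f) : res f q g = 1 ↔ res f (f b ◃ q) g = 1 := by
  have hq' : Nat.card {x // f x = f b ◃ q} = 6 := by rw [card_fiber, hq]
  have hfix : ∀ k : InnRel f, res f (f b) k ⟨b, rfl⟩ = ⟨b, rfl⟩ →
      (res f q k = 1 ↔ res f (f b ◃ q) k = 1) := by
    intro k hk
    have hk' : (k : Perm P) b = b := congrArg Subtype.val hk
    rw [cj_res b q k, cj_of_fix hk']
  constructor
  · rcases normal_or (twoT_res hf (f b ◃ q)) (K := (res f q).ker) inferInstance with h | h
    · exact fun hg => h g hg
    · exact absurd (reg (res f (f b)) (twoT_res hf (f b)) ⟨b, rfl⟩ (res f (f b ◃ q)) hq'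
        (res f q).ker inferInstance h fun k hk hkb => (hfix k hkb).1 hk) id
  · rcases normal_or (twoT_res hf q) (K := (res f (f b ◃ q)).ker) inferInstance with h | h
    · exact fun hg => h g hg
    · exact absurd (reg (res f (f b)) (twoT_res hf (f b)) ⟨b, rfl⟩ (res f q) hq
        (res f (f b ◃ q)).ker inferInstance h fun k hk hkb => (hfix k hkb).2 hk) id

/-- Second step: `s_b` acts trivially on the group that is induced on the fibre of `q`. -/
lemma step2 (hf : DoublyTransitive f) {q : Q} (hq : Nat.card {x // f x = q} = 6) (b : P)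
    (g : InnRel f) : res f q (cj f b g * g⁻¹) = 1 := by
  set K := (res f q).ker with hK
  have hcjK : ∀ k ∈ K, cj f b k ∈ K := fun k hk => (step1 hf hq b _).2 ((cj_res b q k).1 hk)
  change cj f b g * g⁻¹ ∈ K
  rcases normal_or (twoT_res hf (f b)) (K := K) inferInstance with h | h
  · -- `K` acts trivially on the fibre of `b`
    set L := (res f (f b)).ker with hL
    have hLb : ∀ l ∈ L, cj f b l = l := fun l hl => cj_of_fix ((res_eq_one _ _).1 hl b rfl)
    by_cases hLK : ∀ l ∈ L, l ∈ K
    · -- the kernels are the same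
      have hab : (Rack.act' b : Perm P) b = b := Quandle.fix
      let a : Perm {x // f x = f b} := Perm.subtypePerm (Rack.act' b : Perm P) fun x => by
        show f (b ◃ x) = f b ↔ f x = f b
        rw [ShelfHom.map_act]
        conv_lhs => rhs; rw [← Quandle.fix (x := f b)]
        exact Rack.left_cancel _
      have ha : a = 1 := by
        refine gt' hq (twoT_res hf q) (twoT_res hf (f b)) (fun k => ⟨fun hk => h k hk,
          fun hk => hLK k hk⟩) (a := a) (b := ⟨b, rfl⟩) (Subtype.ext hab) ?_
        intro k hk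
        have hk' : (k : Perm P) b = b := congrArg Subtype.val hk
        have e := conj_act k.2.1 hk'
        rw [mul_inv_eq_iff_eq_mul] at e
        ext z
        exact congrArg (fun p : Perm P => p z.1) e
      have ha' : ∀ x, f x = f b → b ◃ x = x := by
        intro x hx
        exact congrArg (fun p : Perm {x // f x = f b} => (p ⟨x, hx⟩ : P)) ha
      refine hLK _ ?_
      rw [hL, MonoidHom.mem_ker, map_mul, map_inv, mul_inv_eq_one]
      ext x
      show b ◃ (g : Perm P) ((Rack.act' b : Perm P)⁻¹ x.1) = (g : Perm P) x.1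
      have h3 : (Rack.act' b : Perm P)⁻¹ x.1 = x.1 := by
        rw [Perm.inv_eq_iff_eq]
        exact (ha' x.1 x.2).symm
      rw [h3, ha' _ ((g.2.2 _).trans x.2)]
    · -- the kernel `L` on the fibre of `b` acts transitively on the fibre of `q`
      have hLt : ∀ y z, ∃ k ∈ L, res f q k y = z := by
        rcases normal_or (twoT_res hf q) (K := L) inferInstance with h1 | h1
        · exact absurd (fun l hl => h1 l hl) hLK
        · exact h1
      have hu : g⁻¹ * cj f b g ∈ Subgroup.centralizer (L : Set (InnRel f)) := by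
        rw [Subgroup.mem_centralizer_iff]
        intro r hr
        have hr' : g * r * g⁻¹ ∈ L := (inferInstance : L.Normal).conj_mem r hr g
        have e := hLb _ hr'
        rw [map_mul, map_mul, map_inv, hLb r hr, mul_inv_eq_iff_eq_mul] at e
        -- `cj g * r = g * r * g⁻¹ * cj g`
        have e' : g⁻¹ * (cj f b g * r) = g⁻¹ * (g * r * g⁻¹ * cj f b g) := by rw [e]
        calc r * (g⁻¹ * cj f b g) = g⁻¹ * (g * r * g⁻¹ * cj f b g) := by group
          _ = g⁻¹ * (cj f b g * r) := e'.symm
          _ = g⁻¹ * cj f b g * r := by group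
      rcases normal_or (twoT_res hf q) (K := Subgroup.centralizer (L : Set (InnRel f)))
        inferInstance with h2 | h2
      · have h3 : g⁻¹ * cj f b g ∈ K := h2 _ hu
        have h4 := (inferInstance : K.Normal).conj_mem _ h3 g
        have h5 : g * (g⁻¹ * cj f b g) * g⁻¹ = cj f b g * g⁻¹ := by group
        rwa [h5] at h4
      · exfalso
        obtain ⟨x⟩ : Nonempty {x // f x = q} := (Nat.card_pos_iff.1 (by omega)).1
        refine reg (res f q) (twoT_res hf q) x (res f q) hq L inferInstance hLt
          fun l hl hlx => ?_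
        ext y
        obtain ⟨c, hc, rfl⟩ := h2 x y
        have e : l * c = c * l := Subgroup.mem_centralizer_iff.1 hc l hl
        have e' := congrArg (fun k => res f q k x) e
        simp only [map_mul, Perm.mul_apply] at e'
        rw [e', hlx]
        simp
  · -- `K` acts transitively on the fibre of `b`
    obtain ⟨k, hk, hkb⟩ := h ⟨b, rfl⟩ (res f (f b) g ⟨b, rfl⟩)
    have hkb' : (k : Perm P) b = (g : Perm P) b := congrArg Subtype.val hkb
    have hfix : ((k⁻¹ * g : InnRel f) : Perm P) b = b := by
      show (k : Perm P)⁻¹ ((g : Perm P) b) = b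
      rw [← hkb']
      simp
    have e : cj f b g * g⁻¹ = cj f b k * k⁻¹ := by
      have e1 : g = k * (k⁻¹ * g) := by group
      have e2 : cj f b g = cj f b k * (k⁻¹ * g) := by
        conv_lhs => rw [e1]
        rw [map_mul, cj_of_fix hfix]
      rw [e2]
      group
    rw [e]
    exact mul_mem (hcjK k hk) (inv_mem hk)

/-- The inner automorphism `u` and its inverse act trivially on the group that is induced on the
fibre of `q`. -/
def Good (f : P →◃ Q) (q : Q) (u : Perm P) : Prop :=
  ∀ g ∈ InnRel f, (u * g * u⁻¹ ∈ InnRel f ∧ ∀ x, f x = q → (u * g * u⁻¹) x = g x) ∧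
    (u⁻¹ * g * u ∈ InnRel f ∧ ∀ x, f x = q → (u⁻¹ * g * u) x = g x)

lemma good_act (hf : DoublyTransitive f) {q : Q} (hq : Nat.card {x // f x = q} = 6) (b : P) :
    Good f q (Rack.act' b) := by
  have key : ∀ g ∈ InnRel f, ∀ x, f x = q →
      ((Rack.act' b : Perm P) * g * (Rack.act' b : Perm P)⁻¹) x = g x := by
    intro g hg x hx
    have h := step2 hf hq b ⟨g, hg⟩
    rw [map_mul, map_inv, mul_inv_eq_one] at h
    exact congrArg (fun e : Perm {x // f x = q} => ((e ⟨x, hx⟩ : {x // f x = q}) : P)) h
  intro g hg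
  refine ⟨⟨conj_mem hg, key g hg⟩, conj_mem' hg, fun x hx => ?_⟩
  have h := key _ (conj_mem' (b := b) hg) x hx
  rw [← h]
  congr 1
  group

lemma good_inn (hf : DoublyTransitive f) {q : Q} (hq : Nat.card {x // f x = q} = 6) {u : Perm P}
    (hu : u ∈ Inn P) : Good f q u := by
  induction hu using Subgroup.closure_induction with
  | mem u hu =>
    obtain ⟨b, rfl⟩ := hu
    exact good_act hf hq b
  | one =>
    intro g hg
    simp [hg]
  | mul u w _ _ h1 h2 =>
    intro g hg
    obtain ⟨⟨a1, a2⟩, -⟩ := h2 g hg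
    obtain ⟨⟨a3, a4⟩, -⟩ := h1 _ a1
    obtain ⟨-, b1, b2⟩ := h1 g hg
    obtain ⟨-, b3, b4⟩ := h2 _ b1
    have e1 : u * w * g * (u * w)⁻¹ = u * (w * g * w⁻¹) * u⁻¹ := by group
    have e2 : (u * w)⁻¹ * g * (u * w) = w⁻¹ * (u⁻¹ * g * u) * w := by group
    rw [e1, e2]
    exact ⟨⟨a3, fun x hx => (a4 x hx).trans (a2 x hx)⟩, b3, fun x hx => (b4 x hx).trans (b2 x hx)⟩
  | inv u _ h =>
    intro g hg
    obtain ⟨h1, h2⟩ := h g hg
    rw [inv_inv]
    exact ⟨h2, h1⟩

/-- No fibre of a doubly transitive homomorphism has exactly six elements. -/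
theorem card_ne_six (hf : DoublyTransitive f) (q : Q) : Nat.card {x // f x = q} ≠ 6 := by
  intro hq
  refine not_comm (twoT_res hf q) (by omega) fun g h => ?_
  have h1 := ((good_inn hf hq g.2.1) h h.2).1.2
  have h2 : res f q (g * h * g⁻¹) = res f q h := by
    ext x
    exact h1 x.1 x.2
  rw [map_mul, map_mul, map_inv, mul_inv_eq_iff_eq_mul] at h2
  exact h2

end

/-- **Main theorem.**  No fibre of a doubly transitive homomorphism of quandles has exactly six
elements.  In particular there is a positive integer `n` (namely `n = 6`) such that no doubly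
transitive quandle homomorphism has a fibre isomorphic to the trivial quandle of order `n`. -/
theorem result :
    (∀ (P : Type u) (Q : Type v) [Quandle P] [Quandle Q] (f : P →◃ Q), DoublyTransitive f →
      ∀ q : Q, Nat.card {x // f x = q} ≠ 6) ∧
    (∀ (P : Type u) (Q : Type v) [Quandle P] [Quandle Q] (f : P →◃ Q), DoublyTransitive f →
      ∀ q : Q, ¬ TrivialFiber f q 6) := by
  refine ⟨fun P Q _ _ f hf q => card_ne_six hf q, fun P Q _ _ f hf q h => ?_⟩
  obtain ⟨⟨e⟩, -⟩ := h
  exact card_ne_six hf q (by rw [Nat.card_congr e, Nat.card_fin])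

end Pool.Agent.Results.MP_4dd1f4_al.NoFiberOfOrderSix
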