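import Pool.Agent.R325.QHMain

namespace Pool.Agent.Results.MP_4dd1f4_al.NoSix

open Quandles Pool.Agent.R325.QH

universe u v

/-- The negated form of Q1 holds: there is a positive integer `n` (namely `6`) such that no doubly
transitive quandle homomorphism has a fibre isomorphic to the trivial quandle of order `n`.
In fact no doubly transitive quandle homomorphism has a fibre with exactly `6` points. -/
theorem result :
    (∃ n : ℕ, 0 < n ∧ ∀ (P : Type u) (Q : Type v) [Quandle P] [Quandle Q] (f : P →◃ Q),
      DoublyTransitive f → ∀ q : Q, ¬ FibreIsTrivial f q n) ∧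
    (∀ (P : Type u) (Q : Type v) [Quandle P] [Quandle Q] (f : P →◃ Q),
      DoublyTransitive f → ∀ q : Q, Nat.card {x : P // f x = q} ≠ 6) := by
  refine ⟨⟨6, by norm_num, ?_⟩, ?_⟩
  · intro P Q _ _ f hf q h
    exact no_six f hf q h.2.1
  · intro P Q _ _ f hf q
    exact no_six f hf q

end Pool.Agent.Results.MP_4dd1f4_al.NoSix
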